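import Pool.Agent.H27.G.R_seed8.Helper240.ZU.A3

open Complex Filter Topology Set MeasureTheory

namespace H353

open ZU.J_a3

theorem gm_expand' (σ T t : ℝ) (S : Finset ℕ) (hS : ∀ n ∈ S, 1 ≤ n) (a : ℕ → ℝ) :
    ((Real.exp (-(t / T) ^ 2) * ‖∑ n ∈ S, (a n : ℂ) * (n : ℂ) ^ (-((σ : ℂ) + t * I))‖ ^ 2 : ℝ) : ℂ) =
      ∑ m ∈ S, ∑ n ∈ S, (((a m * gr σ m) * (a n * gr σ n) : ℝ) : ℂ) *
        cexp (((-(1 / T ^ 2) : ℝ) : ℂ) * (t : ℂ) ^ 2 +
          (I * ((Real.log n - Real.log m : ℝ) : ℂ)) * t + 0) := by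
  have h1 : ∑ n ∈ S, (a n : ℂ) * (n : ℂ) ^ (-((σ : ℂ) + t * I)) =
      ∑ n ∈ S, ((a n * gr σ n : ℝ) : ℂ) * cexp (-(I * Real.log n * t)) :=
    Finset.sum_congr rfl fun n hn => by
      rw [gm_cpow σ t n (hS n hn)]; push_cast; ring
  rw [h1, Complex.ofReal_mul, Complex.ofReal_pow, ← Complex.mul_conj', map_sum, Finset.sum_mul_sum,
    Finset.mul_sum]
  refine Finset.sum_congr rfl fun m _ => ?_
  rw [Finset.mul_sum]
  refine Finset.sum_congr rfl fun n _ => ?_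
  rw [map_mul, Complex.conj_ofReal, ← Complex.exp_conj]
  have e1 : (starRingEnd ℂ) (-(I * Real.log n * t)) = I * Real.log n * t := by
    simp only [map_neg, map_mul, Complex.conj_I, Complex.conj_ofReal]
    ring
  rw [e1, Complex.ofReal_exp]
  have e2 : (((-(1 / T ^ 2) : ℝ) : ℂ) * (t : ℂ) ^ 2 +
      (I * ((Real.log n - Real.log m : ℝ) : ℂ)) * t + 0) =
      ((-(t / T) ^ 2 : ℝ) : ℂ) + (-(I * Real.log m * t)) + (I * Real.log n * t) := by
    push_cast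
    ring
  rw [e2, Complex.exp_add, Complex.exp_add]
  push_cast
  ring

theorem gauss_mv' (σ : ℝ) (S : Finset ℕ) (a : ℕ → ℝ) (L : ℕ) (hS : ∀ n ∈ S, 1 ≤ n ∧ n ≤ L)
    (T : ℝ) (hT : 0 < T) :
    Integrable (fun t : ℝ => Real.exp (-(t / T) ^ 2) *
      ‖∑ n ∈ S, (a n : ℂ) * (n : ℂ) ^ (-((σ : ℂ) + t * I))‖ ^ 2) ∧
    ∫ t : ℝ, Real.exp (-(t / T) ^ 2) *
      ‖∑ n ∈ S, (a n : ℂ) * (n : ℂ) ^ (-((σ : ℂ) + t * I))‖ ^ 2 ≤
      √Real.pi * T * (∑ n ∈ S, a n ^ 2 * (n : ℝ) ^ (-(2 * σ)) +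
        (∑ n ∈ S, |a n| * (n : ℝ) ^ (-σ)) ^ 2 * Real.exp (-(T ^ 2 / (4 * (L : ℝ) ^ 2)))) := by
  have hS1 : ∀ n ∈ S, 1 ≤ n := fun n hn => (hS n hn).1
  have hSL : ∀ n ∈ S, n ≤ L := fun n hn => (hS n hn).2
  have hint : ∀ m n : ℕ, Integrable fun t : ℝ => (((a m * gr σ m) * (a n * gr σ n) : ℝ) : ℂ) *
        cexp (((-(1 / T ^ 2) : ℝ) : ℂ) * (t : ℂ) ^ 2 +
          (I * ((Real.log n - Real.log m : ℝ) : ℂ)) * t + 0) :=
    fun m n => (gm_int T _ hT).const_mul _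
  have hexp : (fun t : ℝ => ((Real.exp (-(t / T) ^ 2) *
      ‖∑ n ∈ S, (a n : ℂ) * (n : ℂ) ^ (-((σ : ℂ) + t * I))‖ ^ 2 : ℝ) : ℂ)) = fun t : ℝ =>
      ∑ m ∈ S, ∑ n ∈ S, (((a m * gr σ m) * (a n * gr σ n) : ℝ) : ℂ) *
        cexp (((-(1 / T ^ 2) : ℝ) : ℂ) * (t : ℂ) ^ 2 +
          (I * ((Real.log n - Real.log m : ℝ) : ℂ)) * t + 0) := by
    funext t
    exact gm_expand' σ T t S hS1 a
  have hI : Integrable (fun t : ℝ => ((Real.exp (-(t / T) ^ 2) *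
      ‖∑ n ∈ S, (a n : ℂ) * (n : ℂ) ^ (-((σ : ℂ) + t * I))‖ ^ 2 : ℝ) : ℂ)) := by
    rw [hexp]
    exact integrable_finsetSum _ fun m _ => integrable_finsetSum _ fun n _ => hint m n
  have hIr : Integrable (fun t : ℝ => Real.exp (-(t / T) ^ 2) *
      ‖∑ n ∈ S, (a n : ℂ) * (n : ℂ) ^ (-((σ : ℂ) + t * I))‖ ^ 2) := by
    exact hI.re
  refine ⟨hIr, ?_⟩
  have hval : ∫ t : ℝ, Real.exp (-(t / T) ^ 2) *
      ‖∑ n ∈ S, (a n : ℂ) * (n : ℂ) ^ (-((σ : ℂ) + t * I))‖ ^ 2 =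
        ∑ m ∈ S, ∑ n ∈ S, ((a m * gr σ m) * (a n * gr σ n)) *
        (√Real.pi * T * Real.exp (-(T ^ 2 * (Real.log n - Real.log m) ^ 2 / 4))) := by
    have h1 : ((∫ t : ℝ, Real.exp (-(t / T) ^ 2) *
      ‖∑ n ∈ S, (a n : ℂ) * (n : ℂ) ^ (-((σ : ℂ) + t * I))‖ ^ 2 : ℝ) : ℂ) =
        ((∑ m ∈ S, ∑ n ∈ S, ((a m * gr σ m) * (a n * gr σ n)) *
        (√Real.pi * T * Real.exp (-(T ^ 2 * (Real.log n - Real.log m) ^ 2 / 4))) : ℝ) : ℂ) := by
      rw [← integral_complex_ofReal]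
      rw [hexp, integral_finsetSum _ fun m _ => integrable_finsetSum _ fun n _ => hint m n,
        Complex.ofReal_sum]
      refine Finset.sum_congr rfl fun m _ => ?_
      rw [integral_finsetSum _ fun n _ => hint m n, Complex.ofReal_sum]
      refine Finset.sum_congr rfl fun n _ => ?_
      rw [integral_const_mul, gm_val T _ hT, ← Complex.ofReal_mul]
    exact Complex.ofReal_injective h1
  rw [hval]
  have hr0 : ∀ n, 0 ≤ gr σ n := fun n => (Real.exp_pos _).le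
  have hr1 : ∀ n ∈ S, gr σ n = (n : ℝ) ^ (-σ) := by
    intro n hn
    have hn0 : (0 : ℝ) < n := by exact_mod_cast hS1 n hn
    rw [gr, Real.rpow_def_of_pos hn0]
    congr 1
    ring
  have hr2 : ∀ n ∈ S, (a n * gr σ n) * (a n * gr σ n) = a n ^ 2 * (n : ℝ) ^ (-(2 * σ)) := by
    intro n hn
    have hn0 : (0 : ℝ) < n := by exact_mod_cast hS1 n hn
    have e : gr σ n * gr σ n = (n : ℝ) ^ (-(2 * σ)) := by
      rw [gr, ← Real.exp_add, Real.rpow_def_of_pos hn0]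
      congr 1
      ring
    rw [← e]; ring
  set q : ℝ := Real.exp (-(T ^ 2 / (4 * (L : ℝ) ^ 2))) with hq
  have hq0 : 0 ≤ q := (Real.exp_pos _).le
  have hterm : ∀ m ∈ S, ∀ n ∈ S, ((a m * gr σ m) * (a n * gr σ n)) *
      (√Real.pi * T * Real.exp (-(T ^ 2 * (Real.log n - Real.log m) ^ 2 / 4))) ≤
      √Real.pi * T * ((if m = n then a n ^ 2 * (n : ℝ) ^ (-(2 * σ)) else 0) +
        (|a m| * (m : ℝ) ^ (-σ)) * (|a n| * (n : ℝ) ^ (-σ)) * q) := by
    intro m hm n hn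
    have hc : 0 ≤ √Real.pi * T := by positivity
    have hp : 0 ≤ (|a m| * (m : ℝ) ^ (-σ)) * (|a n| * (n : ℝ) ^ (-σ)) := by positivity
    have key : ((a m * gr σ m) * (a n * gr σ n)) *
        Real.exp (-(T ^ 2 * (Real.log n - Real.log m) ^ 2 / 4)) ≤
        (if m = n then a n ^ 2 * (n : ℝ) ^ (-(2 * σ)) else 0) +
          (|a m| * (m : ℝ) ^ (-σ)) * (|a n| * (n : ℝ) ^ (-σ)) * q := by
      by_cases hmn : m = n
      · subst hmn
        rw [if_pos rfl, hr2 m hm, sub_self]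
        simp only [ne_eq, OfNat.ofNat_ne_zero, not_false_eq_true, zero_pow, mul_zero, zero_div,
          neg_zero, Real.exp_zero, mul_one]
        have := mul_nonneg hp hq0
        linarith
      · rw [if_neg hmn, zero_add]
        have hw : 1 / (L : ℝ) ≤ |Real.log n - Real.log m| := by
          rcases lt_or_gt_of_ne hmn with h | h
          · exact (gm_log (hS1 m hm) (hSL m hm) (hS1 n hn) (hSL n hn) h).trans (le_abs_self _)
          · rw [abs_sub_comm]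
            exact (gm_log (hS1 n hn) (hSL n hn) (hS1 m hm) (hSL m hm) h).trans (le_abs_self _)
        have hL0 : (0 : ℝ) < L := by
          have h1 := hS1 n hn
          have h2 := hSL n hn
          exact_mod_cast (by omega : 0 < L)
        have hw2 : 1 / (L : ℝ) ^ 2 ≤ (Real.log n - Real.log m) ^ 2 := by
          rw [← sq_abs (Real.log n - Real.log m), ← one_div_pow]
          exact pow_le_pow_left₀ (by positivity) hw 2
        have hE : Real.exp (-(T ^ 2 * (Real.log n - Real.log m) ^ 2 / 4)) ≤ q := by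
          rw [hq, Real.exp_le_exp, neg_le_neg_iff]
          calc T ^ 2 / (4 * (L : ℝ) ^ 2) = T ^ 2 * (1 / (L : ℝ) ^ 2) / 4 := by field_simp
            _ ≤ _ := by gcongr
        have h5 : (a m * gr σ m) * (a n * gr σ n) ≤
            (|a m| * (m : ℝ) ^ (-σ)) * (|a n| * (n : ℝ) ^ (-σ)) := by
          rw [← hr1 m hm, ← hr1 n hn]
          refine (le_abs_self _).trans (le_of_eq ?_)
          rw [abs_mul, abs_mul, abs_mul, abs_of_nonneg (hr0 m), abs_of_nonneg (hr0 n)]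
        calc ((a m * gr σ m) * (a n * gr σ n)) *
              Real.exp (-(T ^ 2 * (Real.log n - Real.log m) ^ 2 / 4))
            ≤ ((|a m| * (m : ℝ) ^ (-σ)) * (|a n| * (n : ℝ) ^ (-σ))) *
              Real.exp (-(T ^ 2 * (Real.log n - Real.log m) ^ 2 / 4)) :=
              mul_le_mul_of_nonneg_right h5 (Real.exp_nonneg _)
          _ ≤ _ := mul_le_mul_of_nonneg_left hE hp
    calc _ = √Real.pi * T * (((a m * gr σ m) * (a n * gr σ n)) *
          Real.exp (-(T ^ 2 * (Real.log n - Real.log m) ^ 2 / 4))) := by ring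
      _ ≤ _ := mul_le_mul_of_nonneg_left key hc
  refine (Finset.sum_le_sum fun m hm => Finset.sum_le_sum fun n hn => hterm m hm n hn).trans ?_
  have hsum : ∑ m ∈ S, ∑ n ∈ S, √Real.pi * T * ((if m = n then a n ^ 2 * (n : ℝ) ^ (-(2 * σ)) else 0)
        + (|a m| * (m : ℝ) ^ (-σ)) * (|a n| * (n : ℝ) ^ (-σ)) * q) =
      √Real.pi * T * (∑ n ∈ S, a n ^ 2 * (n : ℝ) ^ (-(2 * σ)) +
        (∑ n ∈ S, |a n| * (n : ℝ) ^ (-σ)) ^ 2 * q) := by
    simp only [← Finset.mul_sum, Finset.sum_add_distrib]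
    congr 2
    · refine Finset.sum_congr rfl fun m hm => ?_
      rw [Finset.sum_ite_eq, if_pos hm]
    · rw [sq, Finset.sum_mul_sum, Finset.sum_mul]
      refine Finset.sum_congr rfl fun m _ => ?_
      rw [Finset.sum_mul]
  rw [hsum]

end H353
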